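import Mathlib

/-!
# A supersolution of the recursion of the secretary problem
-/

namespace Pool.Agent.Q331.Goo

open Real

/-- The limit function of the secretary problem. -/
noncomputable def phi (x : ℝ) : ℝ := if x ≤ exp (-1) then exp (-1) else -(x * log x)

theorem psi_le {x : ℝ} (hx : 0 < x) : -(x * log x) ≤ exp (-1) := by
  have h1 := add_one_le_exp (-1 - log x)
  have h2 : exp (-1 - log x) = exp (-1) / x := by
    rw [exp_sub, exp_log hx]
  rw [h2, le_div_iff₀ hx] at h1
  nlinarith

theorem phi_le {x : ℝ} (hx : 0 < x) : phi x ≤ exp (-1) := by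
  unfold phi
  split_ifs
  · exact le_rfl
  · exact psi_le hx

theorem psi_le_phi {x : ℝ} (hx : 0 < x) : -(x * log x) ≤ phi x := by
  unfold phi
  split_ifs
  · exact psi_le hx
  · exact le_rfl

theorem phi_one : phi 1 = 0 := by
  unfold phi
  rw [if_neg]
  · simp
  · rw [not_le]
    exact exp_lt_one_iff.2 (by norm_num)

theorem phi_nonneg {x : ℝ} (hx0 : 0 ≤ x) (hx : x ≤ 1) : 0 ≤ phi x := by
  unfold phi
  split_ifs
  · positivity
  · have := log_nonpos hx0 hx
    nlinarith

/-- The tangent inequality. -/
theorem tangent {x y : ℝ} (hx : 0 < x) (hy : 0 < y) :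
    (x - y) * (1 + log y) ≤ x * log x - y * log y := by
  have h1 := add_one_le_exp (log y - log x)
  rw [exp_sub, exp_log hx, exp_log hy, le_div_iff₀ hx] at h1
  nlinarith

/-- The supersolution. -/
noncomputable def U (n k : ℕ) : ℝ := phi (((k : ℝ) - 1) / (n - 1)) + 2 / (n - 1)

theorem U_nonneg {n k : ℕ} (hn : 2 ≤ n) (hk : 1 ≤ k) (hkn : k ≤ n) : 0 ≤ U n k := by
  have hn' : (0 : ℝ) < (n : ℝ) - 1 := by
    have : (2 : ℝ) ≤ n := by exact_mod_cast hn
    linarith
  have hk' : (0 : ℝ) ≤ (k : ℝ) - 1 := by
    have : (1 : ℝ) ≤ k := by exact_mod_cast hk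
    linarith
  have hkn' : (k : ℝ) ≤ n := by exact_mod_cast hkn
  unfold U
  have h1 : 0 ≤ phi (((k : ℝ) - 1) / (n - 1)) := by
    apply phi_nonneg (by positivity)
    rw [div_le_one hn']
    linarith
  positivity

theorem U_le {n k : ℕ} (hn : 2 ≤ n) (hk : 2 ≤ k) : U n k ≤ exp (-1) + 2 / (n - 1) := by
  have hn' : (0 : ℝ) < (n : ℝ) - 1 := by
    have : (2 : ℝ) ≤ n := by exact_mod_cast hn
    linarith
  have hk' : (0 : ℝ) < (k : ℝ) - 1 := by
    have : (2 : ℝ) ≤ k := by exact_mod_cast hk
    linarith
  unfold U
  have := phi_le (x := ((k : ℝ) - 1) / (n - 1)) (by positivity)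
  linarith

theorem U_step {n k : ℕ} (hn : 2 ≤ n) (hk : 2 ≤ k) (hkn : k + 1 ≤ n) :
    (1 - 1 / (k : ℝ)) * U n (k + 1) + 1 / k * max ((k : ℝ) / (n - 1)) (U n (k + 1)) ≤ U n k := by
  have hn2 : (2 : ℝ) ≤ n := by exact_mod_cast hn
  have hk2 : (2 : ℝ) ≤ k := by exact_mod_cast hk
  have hkn' : (k : ℝ) + 1 ≤ n := by exact_mod_cast hkn
  have hn' : (0 : ℝ) < (n : ℝ) - 1 := by linarith
  set h : ℝ := 1 / ((n : ℝ) - 1) with hh
  have hh0 : 0 < h := by positivity
  set x : ℝ := (k : ℝ) / (n - 1) with hx
  have hx0 : 0 < x := by positivity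
  have hxh : x - h = ((k : ℝ) - 1) / (n - 1) := by rw [hx, hh]; ring
  have hy0 : 0 < x - h := by
    rw [hxh]
    apply div_pos _ hn'
    linarith
  have hk1 : h / x = 1 / k := by
    rw [hx, hh]; field_simp
  have hU1 : U n (k + 1) = phi x + 2 * h := by
    unfold U
    rw [hx, hh]
    push_cast
    ring_nf
  have hU0 : U n k = phi (x - h) + 2 * h := by
    unfold U
    rw [← hxh, hh]; ring
  rw [hU1, hU0]
  -- the two cases of the maximum
  have key : phi x + 1 / k * max 0 (x - (phi x + 2 * h)) ≤ phi (x - h) := by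
    by_cases hxe : x ≤ exp (-1)
    · have h1 : phi x = exp (-1) := by unfold phi; rw [if_pos hxe]
      have h2 : phi (x - h) = exp (-1) := by
        unfold phi; rw [if_pos (by linarith)]
      rw [h1, h2, max_eq_left (by linarith)]
      simp
    · push Not at hxe
      have h1 : phi x = -(x * log x) := by unfold phi; rw [if_neg (not_le.2 hxe)]
      have hmono : phi x ≤ phi (x - h) := by
        by_cases hye : x - h ≤ exp (-1)
        · have : phi (x - h) = exp (-1) := by unfold phi; rw [if_pos hye]
          rw [this]; exact phi_le hx0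
        · push Not at hye
          have h3 := tangent hx0 hy0
          have h4 := psi_le_phi hy0
          have h5 : -1 ≤ log (x - h) := by
            rw [le_log_iff_exp_le hy0]; exact hye.le
          rw [h1]
          have h6 : 0 ≤ (x - (x - h)) * (1 + log (x - h)) := by
            have : x - (x - h) = h := by ring
            rw [this]
            apply mul_nonneg hh0.le; linarith
          linarith
      rcases le_total (x - (phi x + 2 * h)) 0 with h2 | h2
      · rw [max_eq_left h2]
        linarith
      · rw [max_eq_right h2]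
        have h3 := tangent hx0 hy0
        have h4 := psi_le_phi hy0
        have e1 : x - (x - h) = h := by ring
        rw [e1] at h3
        -- `log (x - h) ≥ log x - 2 h / x`
        have h5 : log x - 2 * (h / x) ≤ log (x - h) := by
          have h6 := one_sub_inv_le_log_of_pos (div_pos hy0 hx0)
          rw [log_div hy0.ne' hx0.ne', inv_div] at h6
          have h7 : 1 - x / (x - h) = -(h / (x - h)) := by
            field_simp; ring
          have h8 : h / (x - h) ≤ 2 * (h / x) := by
            rw [hk1, hxh, hh]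
            have : 1 / ((n : ℝ) - 1) / (((k : ℝ) - 1) / (n - 1)) = 1 / (k - 1) := by
              have : (k : ℝ) - 1 ≠ 0 := by linarith
              field_simp
            rw [this, ← mul_div_assoc, mul_one, div_le_div_iff₀ (by linarith) (by linarith)]
            linarith
          rw [h7] at h6
          linarith
        have h9 : h * (1 + (log x - 2 * (h / x))) ≤ h * (1 + log (x - h)) := by
          gcongr
        have h10 : 1 / (k : ℝ) * (x - (phi x + 2 * h)) = h * (1 + (log x - 2 * (h / x))) := by
          rw [← hk1, h1]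
          field_simp
          ring
        rw [h10]
        linarith
  have hmax : max x (phi x + 2 * h) = phi x + 2 * h + max 0 (x - (phi x + 2 * h)) := by
    rcases le_total x (phi x + 2 * h) with h1 | h1
    · rw [max_eq_right h1, max_eq_left (by linarith)]; ring
    · rw [max_eq_left h1, max_eq_right (by linarith)]; ring
  rw [hmax]
  have e : (1 - 1 / (k : ℝ)) * (phi x + 2 * h) +
      1 / k * (phi x + 2 * h + max 0 (x - (phi x + 2 * h))) =
      phi x + 2 * h + 1 / k * max 0 (x - (phi x + 2 * h)) := by ring
  rw [e]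
  linarith

end Pool.Agent.Q331.Goo
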