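import Pool.Agent.Q331.Goo.Orders
import Pool.Agent.Q331.Goo.Sec

/-!
# The upper bound for the winning probability
-/

open Finset

namespace Pool.Agent.Q331.Goo

theorem desc_pos {m k : ℕ} (h : k ≤ m) : (0 : ℝ) < m.descFactorial k := by
  exact_mod_cast Nat.descFactorial_pos.2 h

/-- The telescoping sum. -/
theorem tele {k m M : ℕ} (hk : 1 ≤ k) (hkm : k ≤ m) (hmM : m ≤ M) :
    ∑ t ∈ Icc (m + 1) M, 1 / (t.descFactorial (k + 1) : ℝ) =
      (1 / (m.descFactorial k : ℝ) - 1 / (M.descFactorial k : ℝ)) / k := by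
  induction M, hmM using Nat.le_induction with
  | base => simp
  | succ M hM ih =>
    rw [sum_Icc_succ_top (by omega), ih]
    have ha := desc_pos (m := M) (k := k) (by omega)
    have hb := desc_pos (m := M + 1) (k := k) (by omega)
    have hk0 : (0 : ℝ) < k := by exact_mod_cast hk
    have e1 : ((M + 1).descFactorial (k + 1) : ℝ) = (M + 1) * M.descFactorial k := by
      rw [Nat.succ_descFactorial_succ]; push_cast; ring
    have e2 : ((M + 1).descFactorial (k + 1) : ℝ) = (M + 1 - k) * (M + 1).descFactorial k := by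
      rw [Nat.descFactorial_succ]
      push_cast [Nat.cast_sub (show k ≤ M + 1 by omega)]
      ring
    rw [e1]
    have e3 : ((M : ℝ) + 1) * M.descFactorial k = (M + 1 - k) * (M + 1).descFactorial k := by
      rw [← e1, e2]
    have hM1 : (0 : ℝ) < (M : ℝ) + 1 := by positivity
    set a : ℝ := (M.descFactorial k : ℝ)
    set b : ℝ := ((M + 1).descFactorial k : ℝ)
    set z : ℝ := (m.descFactorial k : ℝ)
    have key : 1 / (((M : ℝ) + 1) * a) = (1 / a - 1 / b) / k := by
      rw [div_sub_div _ _ ha.ne' hb.ne', div_div, div_eq_div_iff (by positivity) (by positivity)]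
      linear_combination a * e3
    rw [key]
    ring

theorem tele_le {k m M : ℕ} (hk : 1 ≤ k) (hkm : k ≤ m) :
    ∑ t ∈ Icc (m + 1) M, 1 / (t.descFactorial (k + 1) : ℝ) ≤ 1 / ((k : ℝ) * m.descFactorial k) := by
  have hk0 : (0 : ℝ) < k := by exact_mod_cast hk
  have hz := desc_pos hkm
  rcases lt_or_ge M m with h | h
  · rw [Icc_eq_empty (by omega), sum_empty]
    positivity
  · rw [tele hk hkm h]
    have hb := desc_pos (m := M) (k := k) (by omega)
    have : 1 / ((k : ℝ) * m.descFactorial k) = (1 / (m.descFactorial k : ℝ)) / k := by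
      rw [div_div, mul_comm]
    rw [this]
    gcongr
    have : 0 < 1 / (M.descFactorial k : ℝ) := by positivity
    linarith

theorem desc_mul {k j m : ℕ} :
    ((m - k).descFactorial j : ℝ) * m.descFactorial k = m.descFactorial (k + j) := by
  have := Nat.descFactorial_mul_descFactorial (k := k) (m := k + j) (n := m) (by omega)
  rw [Nat.add_sub_cancel_left] at this
  exact_mod_cast this

/-- The ideal weight of a history of length `k` with maximum `m`. -/
noncomputable def mu (s k m : ℕ) : ℝ :=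
  1 / ((s + 1) * ((k - 1 : ℕ) * ((m - 1).descFactorial (k - 1) : ℝ)))

theorem mu_nonneg (s k m : ℕ) : 0 ≤ mu s k m := by unfold mu; positivity

/-- The true weight of a history of length `k` with maximum `m`. -/
noncomputable def Pm (n s k m : ℕ) : ℝ :=
  ∑ t ∈ Icc n (n + s), if m ≤ t then 1 / ((s + 1) * (t.descFactorial k : ℝ)) else 0

theorem Pm_nonneg (n s k m : ℕ) : 0 ≤ Pm n s k m := by
  unfold Pm
  refine sum_nonneg fun t _ => ?_
  split_ifs <;> positivity

theorem G_nonneg (n s m : ℕ) : 0 ≤ G n s m := Pm_nonneg n s n m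

theorem G_le {n s m : ℕ} (hn : 2 ≤ n) (hm : n ≤ m) : G n s m ≤ mu s n m := by
  obtain ⟨k, rfl⟩ : ∃ k, n = k + 1 := ⟨n - 1, by omega⟩
  obtain ⟨m, rfl⟩ : ∃ m', m = m' + 1 := ⟨m - 1, by omega⟩
  unfold G mu
  rw [← sum_filter]
  have e : (Icc (k + 1) (k + 1 + s)).filter (fun t => m + 1 ≤ t) =
      Icc (m + 1) (k + 1 + s) := by
    ext t
    simp only [mem_filter, mem_Icc]
    omega
  rw [e]
  have h1 := tele_le (k := k) (m := m) (M := k + 1 + s) (by omega) (by omega)
  have h2 : ∑ t ∈ Icc (m + 1) (k + 1 + s),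
      1 / (((s : ℝ) + 1) * (t.descFactorial (k + 1) : ℝ)) =
      1 / ((s : ℝ) + 1) * ∑ t ∈ Icc (m + 1) (k + 1 + s),
        1 / (t.descFactorial (k + 1) : ℝ) := by
    rw [mul_sum]
    exact sum_congr rfl fun t _ => (one_div_mul_one_div _ _).symm
  rw [h2]
  simp only [Nat.add_sub_cancel]
  rw [← one_div_mul_one_div]
  gcongr

theorem mu_le_Pm {n s k m : ℕ} (hk : 2 ≤ k) (hkn : k ≤ n) (hm : n ≤ m) (hm2 : m ≤ n + s) :
    mu s k m ≤ Pm n s k m + 1 / ((s + 1) * ((k - 1 : ℕ) * ((n + s).descFactorial (k - 1) : ℝ))) := by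
  obtain ⟨k, rfl⟩ : ∃ k', k = k' + 1 := ⟨k - 1, by omega⟩
  obtain ⟨m, rfl⟩ : ∃ m', m = m' + 1 := ⟨m - 1, by omega⟩
  unfold Pm mu
  rw [← sum_filter]
  have e : (Icc n (n + s)).filter (fun t => m + 1 ≤ t) = Icc (m + 1) (n + s) := by
    ext t
    simp only [mem_filter, mem_Icc]
    omega
  rw [e]
  have h1 := tele (k := k) (m := m) (M := n + s) (by omega) (by omega) (by omega)
  have h2 : ∑ t ∈ Icc (m + 1) (n + s), 1 / (((s : ℝ) + 1) * (t.descFactorial (k + 1) : ℝ)) =
      1 / ((s : ℝ) + 1) * ∑ t ∈ Icc (m + 1) (n + s), 1 / (t.descFactorial (k + 1) : ℝ) := by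
    rw [mul_sum]
    exact sum_congr rfl fun t _ => (one_div_mul_one_div _ _).symm
  rw [h2, h1]
  simp only [Nat.add_sub_cancel]
  have hk0 : (0 : ℝ) < k := by
    have : 0 < k := by omega
    exact_mod_cast this
  have hz := desc_pos (m := m) (k := k) (by omega)
  have hb := desc_pos (m := n + s) (k := k) (by omega)
  have hn : (0 : ℝ) < (s : ℝ) + 1 := by positivity
  apply le_of_eq
  field_simp
  ring

section Main

variable {n s : ℕ} {σ : List ℕ → ℝ}

theorem win_nonneg (hσ : ∀ l, 0 ≤ σ l ∧ σ l ≤ 1) (M : ℕ) (r : List ℕ) :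
    ∀ h, 0 ≤ win σ M h r := by
  induction r with
  | nil => intro h; exact le_rfl
  | cons x r ih =>
    intro h
    rw [win]
    have h1 := hσ (h ++ [x])
    have h2 := ih (h ++ [x])
    have h3 : (0 : ℝ) ≤ if x = M then 1 else 0 := by split_ifs <;> norm_num
    have := mul_nonneg h1.1 h3
    have := mul_nonneg (sub_nonneg.2 h1.2) h2
    linarith

theorem win_le_one (hσ : ∀ l, 0 ≤ σ l ∧ σ l ≤ 1) (M : ℕ) (r : List ℕ) :
    ∀ h, win σ M h r ≤ 1 := by
  induction r with
  | nil => intro h; rw [win]; norm_num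
  | cons x r ih =>
    intro h
    rw [win]
    have h1 := hσ (h ++ [x])
    have h2 := ih (h ++ [x])
    have h3 : (if x = M then (1 : ℝ) else 0) ≤ 1 := by split_ifs <;> norm_num
    have := mul_le_mul_of_nonneg_left h3 h1.1
    have := mul_le_mul_of_nonneg_left h2 (sub_nonneg.2 h1.2)
    linarith

/-- The winning probability from the history `h` on (times the probability of `h`). -/
noncomputable def Wv (n s : ℕ) (σ : List ℕ → ℝ) (j : ℕ) (h : List ℕ) : ℝ :=
  tot (Icc 1 (n + s)) j h (fun r => G n s (mx (h ++ r)) * win σ (mx (h ++ r)) h r)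

/-- The winning probability when stopping on `x`. -/
noncomputable def Qv (n s : ℕ) (j : ℕ) (h : List ℕ) (x : ℕ) : ℝ :=
  tot (Icc 1 (n + s)) j (h ++ [x]) (fun r => G n s (mx (h ++ [x] ++ r)) *
    (if x = mx (h ++ [x] ++ r) then 1 else 0))

theorem Wv_zero (h : List ℕ) : Wv n s σ 0 h = 0 := by
  simp [Wv, tot, win]

theorem Wv_succ (j : ℕ) (h : List ℕ) : Wv n s σ (j + 1) h =
    ∑ x ∈ (Icc 1 (n + s)).filter (fun x => x ∉ h),
      (σ (h ++ [x]) * Qv n s j h x + (1 - σ (h ++ [x])) * Wv n s σ j (h ++ [x])) := by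
  unfold Wv Qv
  rw [tot]
  refine sum_congr rfl fun x _ => ?_
  rw [← tot_mul, ← tot_mul, ← tot_add]
  congr 1
  funext r
  rw [win]
  have e : h ++ x :: r = h ++ [x] ++ r := by simp
  rw [e]
  have e2 : (if x = mx (h ++ [x] ++ r) then (1 : ℝ) else 0) =
      if x = mx (h ++ [x] ++ r) then 1 else 0 := rfl
  ring

theorem nodup_snoc {h : List ℕ} (hh : h.Nodup) {x : ℕ} (hx : x ∉ h) : (h ++ [x]).Nodup := by
  rw [List.nodup_append]
  refine ⟨hh, List.nodup_singleton _, ?_⟩
  intro a ha b hb
  simp only [List.mem_singleton] at hb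
  subst hb
  rintro rfl
  exact hx ha

theorem Qv_eq {j : ℕ} {h : List ℕ} (hh : h.Nodup) (h1 : ∀ y ∈ h, 1 ≤ y) {x : ℕ}
    (hx : x ∈ Icc 1 (n + s)) (hxh : x ∉ h) :
    Qv n s j h x = if mx h < x then G n s x * ((x - (h.length + 1)).descFactorial j : ℝ) else 0 := by
  rw [mem_Icc] at hx
  unfold Qv
  have hx' := nodup_snoc hh hxh
  have hx1 : ∀ y ∈ h ++ [x], 1 ≤ y := by
    intro y hy
    rw [List.mem_append, List.mem_singleton] at hy
    rcases hy with hy | rfl
    · exact h1 y hy
    · exact hx.1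
  have e : (fun r => G n s (mx (h ++ [x] ++ r)) * (if x = mx (h ++ [x] ++ r) then (1 : ℝ) else 0)) =
      fun r => if mx (h ++ [x] ++ r) ≤ x then G n s x else 0 := by
    funext r
    have h2 : x ≤ mx (h ++ [x] ++ r) := le_mx (by simp)
    by_cases h3 : mx (h ++ [x] ++ r) ≤ x
    · have h4 : x = mx (h ++ [x] ++ r) := le_antisymm h2 h3
      rw [if_pos h3, if_pos h4, ← h4, mul_one]
    · have h4 : x ≠ mx (h ++ [x] ++ r) := fun h4 => h3 h4.ge
      rw [if_neg h3, if_neg h4, mul_zero]
  rw [e, tot_le hx.2 _ _ _ hx' hx1]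
  have e2 : mx (h ++ [x]) ≤ x ↔ mx h < x := by
    rw [mx_append, mx_cons, mx_nil]
    constructor
    · intro h2
      have h3 : mx h ≤ x := (le_max_left _ _).trans h2
      refine lt_of_le_of_ne h3 fun h4 => hxh ?_
      rw [← h4]
      apply mx_mem
      rintro rfl
      rw [mx_nil] at h4
      omega
    · intro h2
      simp; omega
  simp only [e2, List.length_append, List.length_singleton]

theorem Wv_nonneg (hσ : ∀ l, 0 ≤ σ l ∧ σ l ≤ 1) (j : ℕ) {h : List ℕ} (hh : h.Nodup) :
    0 ≤ Wv n s σ j h :=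
  tot_nonneg _ _ _ hh fun _ => mul_nonneg (G_nonneg _ _ _) (win_nonneg hσ _ _ _)

/-- The true weight of a history. -/
theorem tot_G {j : ℕ} {h : List ℕ} (hh : h.Nodup) (h1 : ∀ y ∈ h, 1 ≤ y) (hj : h.length + j = n) :
    tot (Icc 1 (n + s)) j h (fun r => G n s (mx (h ++ r))) = Pm n s h.length (mx h) := by
  unfold G Pm
  rw [tot_sum]
  refine sum_congr rfl fun t ht => ?_
  rw [mem_Icc] at ht
  rw [tot_le ht.2 _ _ _ hh h1]
  split_ifs
  · have h2 := desc_mul (k := h.length) (j := j) (m := t)
    rw [hj] at h2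
    rw [← h2]
    have h3 := desc_pos (m := t) (k := h.length) (by omega)
    have h4 := desc_pos (m := t - h.length) (k := j) (by omega)
    have h5 : (0 : ℝ) < (s : ℝ) + 1 := by positivity
    field_simp
  · rfl

theorem Wv_le_Pm (hσ : ∀ l, 0 ≤ σ l ∧ σ l ≤ 1) {j : ℕ} {h : List ℕ} (hh : h.Nodup)
    (h1 : ∀ y ∈ h, 1 ≤ y) (hj : h.length + j = n) : Wv n s σ j h ≤ Pm n s h.length (mx h) := by
  rw [← tot_G hh h1 hj]
  refine tot_mono _ _ _ _ hh fun r _ _ _ => ?_
  have := mul_le_mul_of_nonneg_left (win_le_one hσ (mx (h ++ r)) r h) (G_nonneg n s (mx (h ++ r)))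
  linarith

theorem Q_bound (hn : 2 ≤ n) {k j x : ℕ} (hk : 1 ≤ k) (hkj : k + 1 + j = n) (hx : k + 1 ≤ x) :
    G n s x * ((x - (k + 1)).descFactorial j : ℝ) ≤ mu s (k + 1) x * (k / (n - 1)) := by
  have hn1 : (0 : ℝ) < (n : ℝ) - 1 := by
    have : (2 : ℝ) ≤ n := by exact_mod_cast hn
    linarith
  rcases lt_or_ge x n with h | h
  · have : (x - (k + 1)).descFactorial j = 0 := by
      rw [Nat.descFactorial_eq_zero_iff_lt]; omega
    rw [this]
    have := mu_nonneg s (k + 1) x
    simp only [Nat.cast_zero, mul_zero]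
    positivity
  · have h1 := G_le (s := s) hn h
    have h2 : (0 : ℝ) ≤ (x - (k + 1)).descFactorial j := Nat.cast_nonneg _
    refine (mul_le_mul_of_nonneg_right h1 h2).trans (le_of_eq ?_)
    unfold mu
    have h3 := desc_mul (k := k) (j := j) (m := x - 1)
    have e1 : x - 1 - k = x - (k + 1) := by omega
    have e2 : k + j = n - 1 := by omega
    rw [e1, e2] at h3
    rw [← h3]
    have h4 : (0 : ℝ) < (x - (k + 1)).descFactorial j := desc_pos (by omega)
    have h5 : (0 : ℝ) < (x - 1).descFactorial k := desc_pos (by omega)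
    have h6 : (0 : ℝ) < (s : ℝ) + 1 := by positivity
    have h7 : (0 : ℝ) < k := by exact_mod_cast hk
    have h8 : ((n - 1 : ℕ) : ℝ) = n - 1 := by
      rw [Nat.cast_sub (by omega)]; simp
    rw [h8, Nat.add_sub_cancel]
    field_simp

/-- The backward induction. -/
theorem Wv_le_mu (hσ : ∀ l, 0 ≤ σ l ∧ σ l ≤ 1) (hn : 2 ≤ n) (j : ℕ) : ∀ (h : List ℕ), h.Nodup →
    (∀ y ∈ h, y ∈ Icc 1 (n + s)) → 2 ≤ h.length → h.length + j = n →
    Wv n s σ j h ≤ mu s h.length (mx h) * U n h.length := by
  induction j with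
  | zero =>
    intro h _ _ h2 hj
    rw [Wv_zero]
    exact mul_nonneg (mu_nonneg _ _ _) (U_nonneg hn (by omega) (by omega))
  | succ j ih =>
    intro h hh hA h2 hj
    set k := h.length with hk
    set m := mx h with hm
    have h1 : ∀ y ∈ h, 1 ≤ y := fun y hy => (mem_Icc.1 (hA y hy)).1
    have hne : h ≠ [] := by
      rintro rfl; simp at hk; omega
    have hmem : m ∈ h := mx_mem hne
    have hm2 : m ≤ n + s := (mem_Icc.1 (hA m hmem)).2
    have hkm : k ≤ m := length_le_mx hh h1
    have hU0 : 0 ≤ U n (k + 1) := U_nonneg hn (by omega) (by omega)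
    set Z : ℝ := max ((k : ℝ) / (n - 1)) (U n (k + 1)) with hZ
    have hZ0 : 0 ≤ Z := hU0.trans (le_max_right _ _)
    rw [Wv_succ]
    -- bound of each term
    have term : ∀ x ∈ (Icc 1 (n + s)).filter (fun x => x ∉ h),
        σ (h ++ [x]) * Qv n s j h x + (1 - σ (h ++ [x])) * Wv n s σ j (h ++ [x]) ≤
        if x ≤ m then mu s (k + 1) m * U n (k + 1) else mu s (k + 1) x * Z := by
      intro x hx
      rw [mem_filter] at hx
      have hx' := nodup_snoc hh hx.2
      have hxA : ∀ y ∈ h ++ [x], y ∈ Icc 1 (n + s) := by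
        intro y hy
        rw [List.mem_append, List.mem_singleton] at hy
        rcases hy with hy | rfl
        · exact hA y hy
        · exact hx.1
      have hlen : (h ++ [x]).length = k + 1 := by simp [hk]
      have ih' := ih (h ++ [x]) hx' hxA (by omega) (by omega)
      rw [hlen] at ih'
      have hs := hσ (h ++ [x])
      rw [Qv_eq hh h1 hx.1 hx.2]
      have hxm : x ≠ m := fun h0 => hx.2 (h0 ▸ hmem)
      by_cases hle : x ≤ m
      · rw [if_pos hle, if_neg (by omega)]
        have hmx : mx (h ++ [x]) = m := by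
          rw [mx_append, mx_cons, mx_nil]; simp; omega
        rw [hmx] at ih'
        have h3 : 0 ≤ mu s (k + 1) m * U n (k + 1) := mul_nonneg (mu_nonneg _ _ _) hU0
        have h4 := mul_le_mul_of_nonneg_left ih' (sub_nonneg.2 hs.2)
        have h5 : (1 - σ (h ++ [x])) * (mu s (k + 1) m * U n (k + 1)) ≤
            1 * (mu s (k + 1) m * U n (k + 1)) := by
          apply mul_le_mul_of_nonneg_right _ h3
          linarith [hs.1]
        linarith
      · rw [if_neg hle, if_pos (by omega)]
        have hmx : mx (h ++ [x]) = x := by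
          rw [mx_append, mx_cons, mx_nil]; simp; omega
        rw [hmx] at ih'
        have hmu := mu_nonneg s (k + 1) x
        have h3 : G n s x * ((x - (k + 1)).descFactorial j : ℝ) ≤ mu s (k + 1) x * Z :=
          (Q_bound hn (by omega) (by omega) (by omega)).trans (by gcongr; exact le_max_left _ _)
        have h4 : Wv n s σ j (h ++ [x]) ≤ mu s (k + 1) x * Z :=
          ih'.trans (by gcongr; exact le_max_right _ _)
        have h5 := mul_le_mul_of_nonneg_left h3 hs.1
        have h6 := mul_le_mul_of_nonneg_left h4 (sub_nonneg.2 hs.2)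
        linarith
    refine (sum_le_sum term).trans ?_
    rw [sum_ite, filter_filter, filter_filter, sum_const, card_new hh h1 hm2 le_rfl, nsmul_eq_mul]
    -- the two parts
    have part2 : ∑ x ∈ (Icc 1 (n + s)).filter (fun x => x ∉ h ∧ ¬ x ≤ m), mu s (k + 1) x * Z ≤
        mu s k m / k * Z := by
      have hsub : (Icc 1 (n + s)).filter (fun x => x ∉ h ∧ ¬ x ≤ m) ⊆ Icc (m + 1) (n + s) := by
        intro x hx
        rw [mem_filter, mem_Icc] at hx
        rw [mem_Icc]
        omega
      refine (sum_le_sum_of_subset_of_nonneg hsub fun x _ _ =>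
        mul_nonneg (mu_nonneg _ _ _) hZ0).trans ?_
      rw [← sum_mul]
      refine mul_le_mul_of_nonneg_right ?_ hZ0
      obtain ⟨k', hk'⟩ : ∃ k', k = k' + 1 := ⟨k - 1, by omega⟩
      obtain ⟨m', hm'⟩ : ∃ m', m = m' + 1 := ⟨m - 1, by omega⟩
      have h3 := tele_le (k := k') (m := m') (M := n + s - 1) (by omega) (by omega)
      have h4 : ∑ x ∈ Icc (m + 1) (n + s), mu s (k + 1) x =
          1 / (((s : ℝ) + 1) * k) * ∑ t ∈ Icc (m' + 1) (n + s - 1),
            1 / (t.descFactorial (k' + 1) : ℝ) := by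
        rw [mul_sum]
        apply sum_nbij' (fun x => x - 1) (fun t => t + 1)
        · intro x hx; rw [mem_Icc] at hx ⊢; omega
        · intro x hx; rw [mem_Icc] at hx ⊢; omega
        · intro x hx
          rw [mem_Icc] at hx
          show x - 1 + 1 = x
          omega
        · intro x hx; simp
        · intro x hx
          unfold mu
          rw [Nat.add_sub_cancel, hk', one_div_mul_one_div]
          congr 1
          ring
      rw [h4]
      have hk0 : (0 : ℝ) < k := by
        have : 0 < k := by omega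
        exact_mod_cast this
      calc 1 / (((s : ℝ) + 1) * k) * ∑ t ∈ Icc (m' + 1) (n + s - 1),
            1 / (t.descFactorial (k' + 1) : ℝ)
          ≤ 1 / (((s : ℝ) + 1) * k) * (1 / ((k' : ℝ) * m'.descFactorial k')) := by gcongr
        _ = mu s k m / k := by
          unfold mu
          rw [hk', hm', Nat.add_sub_cancel, Nat.add_sub_cancel, div_div, one_div_mul_one_div]
          congr 1
          ring
    have part1 : ((m - k : ℕ) : ℝ) * (mu s (k + 1) m * U n (k + 1)) ≤
        (1 - 1 / (k : ℝ)) * mu s k m * U n (k + 1) := by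
      rw [← mul_assoc]
      refine mul_le_mul_of_nonneg_right ?_ hU0
      have hk0 : (0 : ℝ) < k := by
        have : 0 < k := by omega
        exact_mod_cast this
      have hk1 : (0 : ℝ) < ((k - 1 : ℕ) : ℝ) := by
        have : 0 < k - 1 := by omega
        exact_mod_cast this
      have hkk : ((k - 1 : ℕ) : ℝ) = k - 1 := by
        rw [Nat.cast_sub (by omega)]; simp
      rcases hkm.lt_or_eq with hlt | heq
      · apply le_of_eq
        unfold mu
        rw [Nat.add_sub_cancel]
        have h3 : ((m - 1).descFactorial k : ℝ) =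
            ((m - k : ℕ) : ℝ) * (m - 1).descFactorial (k - 1) := by
          have h4 : k = (k - 1) + 1 := by omega
          have h5 : (m - 1).descFactorial k = (m - k) * (m - 1).descFactorial (k - 1) := by
            conv_lhs => rw [h4, Nat.descFactorial_succ]
            congr 1
            omega
          rw [h5]; push_cast; ring
        rw [h3]
        have h4 : (0 : ℝ) < ((m - k : ℕ) : ℝ) := by
          have : 0 < m - k := by omega
          exact_mod_cast this
        have h5 : (0 : ℝ) < (m - 1).descFactorial (k - 1) := desc_pos (by omega)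
        have h6 : (0 : ℝ) < (s : ℝ) + 1 := by positivity
        have h7 : (1 : ℝ) - 1 / k = ((k : ℝ) - 1) / k := by field_simp
        have h8 : (k : ℝ) - 1 ≠ 0 := by rw [← hkk]; exact hk1.ne'
        rw [h7, hkk]
        field_simp
      · rw [← heq, Nat.sub_self]
        simp only [Nat.cast_zero, zero_mul]
        apply mul_nonneg _ (mu_nonneg _ _ _)
        rw [sub_nonneg, div_le_one hk0]
        have : 1 ≤ k := by omega
        exact_mod_cast this
    have hstep := U_step hn h2 (by omega : k + 1 ≤ n)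
    calc ((m - k : ℕ) : ℝ) * (mu s (k + 1) m * U n (k + 1)) +
          ∑ x ∈ (Icc 1 (n + s)).filter (fun x => x ∉ h ∧ ¬ x ≤ m), mu s (k + 1) x * Z
        ≤ (1 - 1 / (k : ℝ)) * mu s k m * U n (k + 1) + mu s k m / k * Z := add_le_add part1 part2
      _ = mu s k m * ((1 - 1 / (k : ℝ)) * U n (k + 1) + 1 / k * Z) := by ring
      _ ≤ mu s k m * U n k := mul_le_mul_of_nonneg_left hstep (mu_nonneg _ _ _)

end Main

end Pool.Agent.Q331.Goo
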