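import Mathlib

/-!
# The game of googol with finitely many numerical values: definitions
-/

open Finset

namespace Pool.Agent.Q331.Goo

/-- An instance: a probability distribution `D` on the `n`-element subsets of `{1, ..., N}`. -/
structure IsInstance (n N : ℕ) (D : Finset ℕ → ℝ) : Prop where
  nonneg : ∀ S, 0 ≤ D S
  supp : ∀ S, D S ≠ 0 → S ⊆ Icc 1 N ∧ S.card = n
  total : ∑ S ∈ (Icc 1 N).powersetCard n, D S = 1

/-- The orderings of the set `S`: the lists without repetition whose set of entries is `S`. -/
noncomputable def orders (S : Finset ℕ) : Finset (List ℕ) := S.toList.permutations.toFinset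

/-- The probability that the algorithm `σ` wins, if the numbers in `h` have been presented and
passed, the numbers in the second list are going to be presented in this order, and the maximum of
the whole set is `M`.  After seeing the values `h ++ [x]` the algorithm stops on `x` with
probability `σ (h ++ [x])`, and it wins if `x = M`. -/
noncomputable def win (σ : List ℕ → ℝ) (M : ℕ) : List ℕ → List ℕ → ℝ
  | _, [] => 0
  | h, x :: r => σ (h ++ [x]) * (if x = M then 1 else 0) + (1 - σ (h ++ [x])) * win σ M (h ++ [x]) r

/-- The winning probability of the algorithm `σ` on the instance `D`: the set `S` is drawn from `D`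
and its elements are presented in uniformly random order. -/
noncomputable def winProb (n N : ℕ) (D : Finset ℕ → ℝ) (σ : List ℕ → ℝ) : ℝ :=
  ∑ S ∈ (Icc 1 N).powersetCard n, D S * ((n.factorial : ℝ)⁻¹ * ∑ l ∈ orders S, win σ (S.sup id) [] l)

end Pool.Agent.Q331.Goo
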