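import Pool.Agent.Q331.Goo.Bound

/-!
# Summing up
-/

open Finset

namespace Pool.Agent.Q331.Goo

variable {n s : ℕ} {σ : List ℕ → ℝ}

/-- The winning probability after the first `i` elements. -/
noncomputable def St (n s : ℕ) (σ : List ℕ → ℝ) (i : ℕ) : ℝ :=
  tot (Icc 1 (n + s)) i [] (fun h => Wv n s σ (n - i) h)

theorem early (hσ : ∀ l, 0 ≤ σ l ∧ σ l ≤ 1) (hn : 2 ≤ n) {i : ℕ} (hi : i < n) :
    St n s σ i ≤ 1 / ((n : ℝ) - 1) + St n s σ (i + 1) := by
  obtain ⟨j, hj⟩ : ∃ j, n - i = j + 1 := ⟨n - i - 1, by omega⟩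
  have hj' : n - (i + 1) = j := by omega
  have hn1 : (0 : ℝ) < (n : ℝ) - 1 := by
    have : (2 : ℝ) ≤ n := by exact_mod_cast hn
    linarith
  unfold St
  rw [hj, hj', tot_succ_last]
  -- the pointwise inequality
  have h1 : tot (Icc 1 (n + s)) i [] (fun h => Wv n s σ (j + 1) h) ≤
      tot (Icc 1 (n + s)) i [] (fun h =>
        (∑ x ∈ Icc 1 (n + s), if mx h ≤ x - 1 then
          G n s x * ((x - (i + 1)).descFactorial j : ℝ) else 0) +
        ∑ x ∈ (Icc 1 (n + s)).filter (fun x => x ∉ [] ++ h), Wv n s σ j (h ++ [x])) := by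
    refine tot_mono _ _ _ _ List.nodup_nil fun h hlen hnd hA => ?_
    rw [List.nil_append] at hnd ⊢
    have h1 : ∀ y ∈ h, 1 ≤ y := fun y hy => (mem_Icc.1 (hA y hy)).1
    rw [Wv_succ]
    have h2 : ∑ x ∈ (Icc 1 (n + s)).filter (fun x => x ∉ h),
        (σ (h ++ [x]) * Qv n s j h x + (1 - σ (h ++ [x])) * Wv n s σ j (h ++ [x])) ≤
        ∑ x ∈ (Icc 1 (n + s)).filter (fun x => x ∉ h),
          ((if mx h ≤ x - 1 then G n s x * ((x - (i + 1)).descFactorial j : ℝ) else 0) +
            Wv n s σ j (h ++ [x])) := by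
      refine sum_le_sum fun x hx => ?_
      rw [mem_filter] at hx
      have hs := hσ (h ++ [x])
      have hW := Wv_nonneg (n := n) (s := s) hσ j (nodup_snoc hnd hx.2)
      have hQ := Qv_eq (n := n) (s := s) (j := j) hnd h1 hx.1 hx.2
      have hx1 := (mem_Icc.1 hx.1).1
      have e : (mx h < x) ↔ mx h ≤ x - 1 := by omega
      rw [hlen] at hQ
      simp only [e] at hQ
      rw [← hQ]
      have hQ0 : 0 ≤ Qv n s j h x := by
        rw [hQ]
        split_ifs
        · exact mul_nonneg (G_nonneg _ _ _) (Nat.cast_nonneg _)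
        · exact le_rfl
      have t1 := mul_le_mul_of_nonneg_right hs.2 hQ0
      have t2 : (1 - σ (h ++ [x])) * Wv n s σ j (h ++ [x]) ≤ 1 * Wv n s σ j (h ++ [x]) :=
        mul_le_mul_of_nonneg_right (by linarith [hs.1]) hW
      linarith
    refine h2.trans ?_
    rw [sum_add_distrib]
    refine add_le_add ?_ le_rfl
    refine sum_le_sum_of_subset_of_nonneg (filter_subset _ _) fun x _ _ => ?_
    split_ifs
    · exact mul_nonneg (G_nonneg _ _ _) (Nat.cast_nonneg _)
    · exact le_rfl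
  refine h1.trans ?_
  rw [tot_add]
  refine add_le_add ?_ le_rfl
  rw [tot_sum]
  have h2 : ∀ x ∈ Icc 1 (n + s), tot (Icc 1 (n + s)) i [] (fun h => if mx h ≤ x - 1 then
      G n s x * ((x - (i + 1)).descFactorial j : ℝ) else 0) ≤
      if n ≤ x then 1 / (((s : ℝ) + 1) * ((n : ℝ) - 1)) else 0 := by
    intro x hx
    rw [mem_Icc] at hx
    have h3 := tot_le (N := n + s) (t := x - 1) (by omega)
      (G n s x * ((x - (i + 1)).descFactorial j : ℝ)) i [] List.nodup_nil (by simp)
    simp only [List.nil_append, mx_nil, Nat.zero_le, if_true, List.length_nil, Nat.sub_zero] at h3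
    rw [h3, mul_assoc]
    have h4 := desc_mul (k := i) (j := j) (m := x - 1)
    have e1 : x - 1 - i = x - (i + 1) := by omega
    have e2 : i + j = n - 1 := by omega
    rw [e1, e2] at h4
    rw [h4]
    split_ifs with h5
    · have h6 := G_le (s := s) hn h5
      have h7 : (0 : ℝ) ≤ (x - 1).descFactorial (n - 1) := Nat.cast_nonneg _
      refine (mul_le_mul_of_nonneg_right h6 h7).trans (le_of_eq ?_)
      unfold mu
      have h8 : ((n - 1 : ℕ) : ℝ) = n - 1 := by
        rw [Nat.cast_sub (by omega)]; simp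
      have h9 : (0 : ℝ) < (x - 1).descFactorial (n - 1) := desc_pos (by omega)
      have h10 : (0 : ℝ) < (s : ℝ) + 1 := by positivity
      rw [h8]
      field_simp
    · have : (x - 1).descFactorial (n - 1) = 0 := by
        rw [Nat.descFactorial_eq_zero_iff_lt]; omega
      rw [this]; simp
  refine (sum_le_sum h2).trans ?_
  rw [← sum_filter]
  have e : (Icc 1 (n + s)).filter (fun x => n ≤ x) = Icc n (n + s) := by
    ext x
    simp only [mem_filter, mem_Icc]
    omega
  rw [e, sum_const, Nat.card_Icc, nsmul_eq_mul]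
  have : n + s + 1 - n = s + 1 := by omega
  rw [this]
  have h10 : (0 : ℝ) < (s : ℝ) + 1 := by positivity
  push_cast
  apply le_of_eq
  field_simp

theorem early_sum (hσ : ∀ l, 0 ≤ σ l ∧ σ l ≤ 1) (hn : 2 ≤ n) : ∀ k ≤ n,
    St n s σ 0 ≤ k / ((n : ℝ) - 1) + St n s σ k := by
  intro k
  induction k with
  | zero => intro _; simp
  | succ k ih =>
    intro hk
    have h1 := ih (by omega)
    have h2 := early (s := s) hσ hn (i := k) (by omega)
    push_cast
    rw [add_div]
    linarith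

theorem late (hσ : ∀ l, 0 ≤ σ l ∧ σ l ≤ 1) (hn : 2 ≤ n) {k : ℕ} (hk : 2 ≤ k) (hkn : k ≤ n) :
    St n s σ k ≤ U n k * (1 + ((n : ℝ) + s) / ((s + 1) * (k - 1))) +
      n / ((s + 1) * ((k : ℝ) - 1)) := by
  set b : ℝ := 1 / ((s + 1) * ((k - 1 : ℕ) * ((n + s).descFactorial (k - 1) : ℝ))) with hb
  set P₀ : ℝ := ∑ t ∈ Icc n (n + s), 1 / ((s + 1) * (t.descFactorial k : ℝ)) with hP₀
  have hs1 : (0 : ℝ) < (s : ℝ) + 1 := by positivity
  have hk1 : (0 : ℝ) < (k : ℝ) - 1 := by
    have : (2 : ℝ) ≤ k := by exact_mod_cast hk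
    linarith
  have hkk : ((k - 1 : ℕ) : ℝ) = k - 1 := by
    rw [Nat.cast_sub (by omega)]; simp
  have hU0 : 0 ≤ U n k := U_nonneg hn (by omega) hkn
  have hb0 : 0 ≤ b := by rw [hb]; positivity
  have hP₀0 : 0 ≤ P₀ := by rw [hP₀]; positivity
  unfold St
  have h1 : tot (Icc 1 (n + s)) k [] (fun h => Wv n s σ (n - k) h) ≤
      tot (Icc 1 (n + s)) k [] (fun h =>
        U n k * ((∑ t ∈ Icc n (n + s), if mx h ≤ t then 1 / ((s + 1) * (t.descFactorial k : ℝ))
          else 0) + (if mx h ≤ n + s then b else 0)) + if mx h ≤ n - 1 then P₀ else 0) := by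
    refine tot_mono _ _ _ _ List.nodup_nil fun h hlen hnd hA => ?_
    rw [List.nil_append] at hnd
    have h1 : ∀ y ∈ h, 1 ≤ y := fun y hy => (mem_Icc.1 (hA y hy)).1
    have hne : h ≠ [] := by
      rintro rfl; simp at hlen; omega
    have hm := (mem_Icc.1 (hA _ (mx_mem hne))).2
    rw [if_pos hm]
    show Wv n s σ (n - k) h ≤ U n k * (Pm n s k (mx h) + b) + _
    rcases lt_or_ge (mx h) n with h2 | h2
    · rw [if_pos (by omega)]
      have h3 := Wv_le_Pm (n := n) (s := s) hσ (j := n - k) hnd h1 (by omega)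
      have h4 : Pm n s h.length (mx h) ≤ P₀ := by
        unfold Pm
        rw [hP₀, hlen]
        refine sum_le_sum fun t _ => ?_
        split_ifs
        · exact le_rfl
        · positivity
      have h5 : 0 ≤ U n k * (Pm n s k (mx h) + b) :=
        mul_nonneg hU0 (add_nonneg (Pm_nonneg _ _ _ _) hb0)
      linarith
    · have h3 := Wv_le_mu (n := n) (s := s) hσ hn (n - k) h hnd hA (by omega) (by omega)
      rw [hlen] at h3
      have h4 := mu_le_Pm (s := s) hk hkn h2 hm
      have h5 : mu s k (mx h) * U n k ≤ (Pm n s k (mx h) + b) * U n k :=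
        mul_le_mul_of_nonneg_right h4 hU0
      have h6 : (0 : ℝ) ≤ if mx h ≤ n - 1 then P₀ else 0 := by split_ifs <;> simp [hP₀0]
      linarith
  refine h1.trans ?_
  rw [tot_add, tot_mul, tot_add, tot_sum]
  have hnil : ∀ t ≤ n + s, ∀ a : ℝ, tot (Icc 1 (n + s)) k [] (fun h => if mx h ≤ t then a else 0) =
      a * (t.descFactorial k : ℝ) := by
    intro t ht a
    have h3 := tot_le (N := n + s) (t := t) ht a k [] List.nodup_nil (by simp)
    simpa [mx_nil] using h3
  -- the three sums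
  have s1 : ∑ t ∈ Icc n (n + s), tot (Icc 1 (n + s)) k []
      (fun h => if mx h ≤ t then 1 / (((s : ℝ) + 1) * (t.descFactorial k : ℝ)) else 0) = 1 := by
    have : ∀ t ∈ Icc n (n + s), tot (Icc 1 (n + s)) k []
        (fun h => if mx h ≤ t then 1 / (((s : ℝ) + 1) * (t.descFactorial k : ℝ)) else 0) =
        1 / ((s : ℝ) + 1) := by
      intro t ht
      rw [mem_Icc] at ht
      rw [hnil t ht.2]
      have := desc_pos (m := t) (k := k) (by omega)
      field_simp
    rw [sum_congr rfl this, sum_const, Nat.card_Icc, nsmul_eq_mul]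
    have : n + s + 1 - n = s + 1 := by omega
    rw [this]
    push_cast
    field_simp
  have s2 : b * ((n + s).descFactorial k : ℝ) ≤ ((n : ℝ) + s) / ((s + 1) * (k - 1)) := by
    have h3 : ((n + s).descFactorial k : ℝ) =
        ((n : ℝ) + s - (k - 1)) * (n + s).descFactorial (k - 1) := by
      have h4 : k = (k - 1) + 1 := by omega
      have h5 : (n + s).descFactorial k = (n + s - (k - 1)) * (n + s).descFactorial (k - 1) := by
        conv_lhs => rw [h4, Nat.descFactorial_succ]
      rw [h5]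
      push_cast [Nat.cast_sub (show k - 1 ≤ n + s by omega)]
      rw [hkk]
    have h6 : (0 : ℝ) < (n + s).descFactorial (k - 1) := desc_pos (by omega)
    rw [hb, h3, hkk]
    have e : 1 / (((s : ℝ) + 1) * (((k : ℝ) - 1) * ((n + s).descFactorial (k - 1) : ℝ))) *
        (((n : ℝ) + s - (k - 1)) * ((n + s).descFactorial (k - 1) : ℝ)) =
        ((n : ℝ) + s - (k - 1)) / ((s + 1) * (k - 1)) := by
      field_simp
    rw [e]
    gcongr
    linarith
  have s3 : P₀ * ((n - 1).descFactorial k : ℝ) ≤ n / ((s + 1) * ((k : ℝ) - 1)) := by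
    have h3 : P₀ ≤ 1 / ((s : ℝ) + 1) * (1 / (((k : ℝ) - 1) * (n - 1).descFactorial (k - 1))) := by
      have h4 := tele_le (k := k - 1) (m := n - 1) (M := n + s) (by omega) (by omega)
      have e1 : n - 1 + 1 = n := by omega
      have e2 : k - 1 + 1 = k := by omega
      rw [e1, e2, hkk] at h4
      have h5 : P₀ = 1 / ((s : ℝ) + 1) * ∑ t ∈ Icc n (n + s), 1 / (t.descFactorial k : ℝ) := by
        rw [hP₀, mul_sum]
        exact sum_congr rfl fun t _ => (one_div_mul_one_div _ _).symm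
      rw [h5]
      gcongr
    have h6 : (0 : ℝ) < (n - 1).descFactorial (k - 1) := desc_pos (by omega)
    have h7 : ((n - 1).descFactorial k : ℝ) =
        ((n : ℝ) - k) * (n - 1).descFactorial (k - 1) := by
      have h4 : k = (k - 1) + 1 := by omega
      have h5 : (n - 1).descFactorial k = (n - 1 - (k - 1)) * (n - 1).descFactorial (k - 1) := by
        conv_lhs => rw [h4, Nat.descFactorial_succ]
      rw [h5]
      have e3 : n - 1 - (k - 1) = n - k := by omega
      rw [e3]
      push_cast [Nat.cast_sub hkn]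
      ring
    calc P₀ * ((n - 1).descFactorial k : ℝ) ≤
        1 / ((s : ℝ) + 1) * (1 / (((k : ℝ) - 1) * (n - 1).descFactorial (k - 1))) *
          ((n - 1).descFactorial k : ℝ) := by gcongr
      _ = ((n : ℝ) - k) / ((s + 1) * ((k : ℝ) - 1)) := by
          rw [h7]; field_simp
      _ ≤ n / ((s + 1) * ((k : ℝ) - 1)) := by
          gcongr
          linarith
  rw [s1, hnil (n + s) le_rfl, hnil (n - 1) (by omega)]
  have h9 : U n k * (1 + b * ((n + s).descFactorial k : ℝ)) ≤
      U n k * (1 + ((n : ℝ) + s) / ((s + 1) * (k - 1))) := by gcongr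
  linarith

/-- The upper bound for the winning probability. -/
theorem winProb_le (hσ : ∀ l, 0 ≤ σ l ∧ σ l ≤ 1) (hn : 2 ≤ n) {k : ℕ} (hk : 2 ≤ k) (hkn : k ≤ n) :
    winProb n (n + s) (inst n s) σ ≤ k / ((n : ℝ) - 1) +
      (Real.exp (-1) + 2 / ((n : ℝ) - 1)) * (1 + ((n : ℝ) + s) / ((s + 1) * (k - 1))) +
      n / ((s + 1) * ((k : ℝ) - 1)) := by
  have h0 : winProb n (n + s) (inst n s) σ = St n s σ 0 := by
    rw [winProb_inst]
    unfold St
    rw [tot]
    unfold Wv
    simp only [Nat.sub_zero, List.nil_append]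
  have hk1 : (0 : ℝ) < (k : ℝ) - 1 := by
    have : (2 : ℝ) ≤ k := by exact_mod_cast hk
    linarith
  rw [h0]
  have h1 := early_sum (s := s) hσ hn k hkn
  have h2 := late (s := s) hσ hn hk hkn
  have h3 := U_le hn hk
  have h4 : U n k * (1 + ((n : ℝ) + s) / ((s + 1) * (k - 1))) ≤
      (Real.exp (-1) + 2 / ((n : ℝ) - 1)) * (1 + ((n : ℝ) + s) / ((s + 1) * (k - 1))) := by
    gcongr
  linarith

end Pool.Agent.Q331.Goo
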