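import Pool.Agent.Q331.Goo.Tot

/-!
# Random sets in random order as sums over completions
-/

open Finset

namespace Pool.Agent.Q331.Goo

theorem mem_orders {S : Finset ℕ} {l : List ℕ} : l ∈ orders S ↔ l.Nodup ∧ l.toFinset = S := by
  unfold orders
  rw [List.mem_toFinset, List.mem_permutations]
  constructor
  · intro h
    refine ⟨h.nodup_iff.2 S.nodup_toList, ?_⟩
    ext x
    rw [List.mem_toFinset, h.mem_iff, mem_toList]
  · rintro ⟨h1, rfl⟩
    rw [List.perm_ext_iff_of_nodup h1 (nodup_toList _)]
    intro a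
    simp

theorem sum_orders {A : Finset ℕ} (j : ℕ) : ∀ (h : List ℕ) (f : List ℕ → ℝ),
    ∑ S ∈ (A.filter fun x => x ∉ h).powersetCard j, ∑ l ∈ orders S, f l = tot A j h f := by
  induction j with
  | zero =>
    intro h f
    rw [powersetCard_zero, sum_singleton]
    have : orders ∅ = {[]} := by
      ext l
      rw [mem_orders, mem_singleton]
      constructor
      · rintro ⟨_, h2⟩
        exact (List.toFinset_eq_empty_iff l).1 h2
      · rintro rfl
        simp
    rw [this, sum_singleton]
    rfl
  | succ j ih =>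
    intro h f
    rw [tot]
    simp_rw [← ih]
    rw [sum_sigma', sum_sigma', sum_sigma']
    symm
    refine sum_bij' (fun a _ => (⟨insert a.1.1 a.1.2, a.1.1 :: a.2⟩ : Σ _ : Finset ℕ, List ℕ))
      (fun b _ => (⟨⟨b.2.headI, b.1.erase b.2.headI⟩, b.2.tail⟩ :
        Σ _ : (Σ _ : ℕ, Finset ℕ), List ℕ)) ?_ ?_ ?_ ?_ ?_
    · rintro ⟨⟨x, S⟩, l⟩ ha
      simp only [mem_sigma, mem_filter, mem_powersetCard, mem_orders, List.mem_append,
        List.mem_singleton, not_or] at ha ⊢
      obtain ⟨⟨⟨hxA, hxh⟩, hS, hcard⟩, hnd, hl⟩ := ha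
      have hxS : x ∉ S := fun hx => (mem_filter.1 (hS hx)).2.2 rfl
      refine ⟨⟨?_, by rw [card_insert_of_notMem hxS, hcard]⟩, ?_, ?_⟩
      · intro y hy
        rw [mem_insert] at hy
        rcases hy with rfl | hy
        · exact mem_filter.2 ⟨hxA, hxh⟩
        · have := mem_filter.1 (hS hy)
          exact mem_filter.2 ⟨this.1, this.2.1⟩
      · rw [List.nodup_cons]
        refine ⟨fun hx => hxS ?_, hnd⟩
        rw [← hl]; exact List.mem_toFinset.2 hx
      · rw [List.toFinset_cons, hl]
    · rintro ⟨S, l⟩ hb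
      simp only [mem_sigma, mem_filter, mem_powersetCard, mem_orders, List.mem_append,
        List.mem_singleton, not_or] at hb ⊢
      obtain ⟨⟨hS, hcard⟩, hnd, hl⟩ := hb
      cases l with
      | nil =>
        simp only [List.toFinset_nil] at hl
        rw [← hl] at hcard
        simp at hcard
      | cons x l =>
        simp only [List.headI_cons, List.tail_cons]
        have hxS : x ∈ S := by rw [← hl]; simp
        rw [List.nodup_cons] at hnd
        have hx := mem_filter.1 (hS hxS)
        refine ⟨⟨hx, ?_, by rw [card_erase_of_mem hxS, hcard]; rfl⟩, hnd.2, ?_⟩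
        · intro y hy
          rw [mem_erase] at hy
          have := mem_filter.1 (hS hy.2)
          exact mem_filter.2 ⟨this.1, this.2, hy.1⟩
        · ext y
          rw [← hl]
          simp only [List.mem_toFinset, List.toFinset_cons, mem_erase, mem_insert]
          constructor
          · intro hy
            exact ⟨fun h => hnd.1 (h ▸ hy), Or.inr hy⟩
          · rintro ⟨h1, h2 | h2⟩
            · exact absurd h2 h1
            · exact h2
    · rintro ⟨⟨x, S⟩, l⟩ ha
      simp only [mem_sigma, mem_filter, mem_powersetCard, mem_orders, List.mem_append,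
        List.mem_singleton, not_or] at ha
      obtain ⟨⟨⟨hxA, hxh⟩, hS, hcard⟩, hnd, hl⟩ := ha
      have hxS : x ∉ S := fun hx => (mem_filter.1 (hS hx)).2.2 rfl
      simp [erase_insert hxS]
    · rintro ⟨S, l⟩ hb
      simp only [mem_sigma, mem_powersetCard, mem_orders] at hb
      obtain ⟨⟨hS, hcard⟩, hnd, hl⟩ := hb
      cases l with
      | nil =>
        simp only [List.toFinset_nil] at hl
        rw [← hl] at hcard
        simp at hcard
      | cons x l =>
        have hxS : x ∈ S := by rw [← hl]; simp
        simp [insert_erase hxS]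
    · rintro ⟨⟨x, S⟩, l⟩ ha
      rfl

/-- The weights of the instance: `t` is uniform on `{n, ..., n + s}`, and `S` is a uniform
`n`-element subset of `{1, ..., t}`. -/
noncomputable def inst (n s : ℕ) (S : Finset ℕ) : ℝ :=
  ∑ t ∈ Icc n (n + s), if S.card = n ∧ S ⊆ Icc 1 t then 1 / ((s + 1) * (t.choose n : ℝ)) else 0

/-- The probability of an ordering with maximum `m`. -/
noncomputable def G (n s m : ℕ) : ℝ :=
  ∑ t ∈ Icc n (n + s), if m ≤ t then 1 / ((s + 1) * (t.descFactorial n : ℝ)) else 0

theorem inst_isInstance (n s : ℕ) : IsInstance n (n + s) (inst n s) where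
  nonneg S := by
    unfold inst
    refine sum_nonneg fun t _ => ?_
    split_ifs <;> positivity
  supp S hS := by
    unfold inst at hS
    obtain ⟨t, ht, hne⟩ := exists_ne_zero_of_sum_ne_zero hS
    rw [mem_Icc] at ht
    split_ifs at hne with h
    · refine ⟨h.2.trans ?_, h.1⟩
      exact Icc_subset_Icc_right ht.2
    · exact absurd rfl hne
  total := by
    unfold inst
    rw [sum_comm]
    have : ∀ t ∈ Icc n (n + s), (∑ S ∈ (Icc 1 (n + s)).powersetCard n,
        if S.card = n ∧ S ⊆ Icc 1 t then 1 / ((s + 1) * (t.choose n : ℝ)) else 0) =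
        1 / (s + 1) := by
      intro t ht
      rw [mem_Icc] at ht
      rw [← sum_filter]
      have e : ((Icc 1 (n + s)).powersetCard n).filter (fun S => S.card = n ∧ S ⊆ Icc 1 t) =
          (Icc 1 t).powersetCard n := by
        ext S
        simp only [mem_filter, mem_powersetCard]
        constructor
        · rintro ⟨_, h1, h2⟩
          exact ⟨h2, h1⟩
        · rintro ⟨h1, h2⟩
          exact ⟨⟨h1.trans (Icc_subset_Icc_right ht.2), h2⟩, h2, h1⟩
      rw [e, sum_const, card_powersetCard, Nat.card_Icc, Nat.add_sub_cancel, nsmul_eq_mul]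
      have hc : (0 : ℝ) < t.choose n := by exact_mod_cast Nat.choose_pos ht.1
      have hn : (0 : ℝ) < s + 1 := by positivity
      field_simp
    rw [sum_congr rfl this, sum_const, Nat.card_Icc, nsmul_eq_mul]
    have : n + s + 1 - n = s + 1 := by omega
    rw [this]
    have hn : (0 : ℝ) < s + 1 := by positivity
    push_cast
    field_simp

theorem winProb_inst (n s : ℕ) (σ : List ℕ → ℝ) :
    winProb n (n + s) (inst n s) σ =
      tot (Icc 1 (n + s)) n [] (fun r => G n s (mx r) * win σ (mx r) [] r) := by
  rw [← sum_orders]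
  have e : (Icc 1 (n + s)).filter (fun x => x ∉ ([] : List ℕ)) = Icc 1 (n + s) := by
    simp
  rw [e]
  unfold winProb
  refine sum_congr rfl fun S hS => ?_
  rw [mem_powersetCard] at hS
  rw [mul_sum, mul_sum]
  refine sum_congr rfl fun l hl => ?_
  rw [mem_orders] at hl
  have hm : mx l = S.sup id := by rw [mx_eq_sup, hl.2]
  rw [hm, ← mul_assoc]
  congr 1
  unfold inst G
  rw [sum_mul]
  refine sum_congr rfl fun t ht => ?_
  have hiff : (S.card = n ∧ S ⊆ Icc 1 t) ↔ S.sup id ≤ t := by
    constructor
    · rintro ⟨_, h⟩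
      exact Finset.sup_le fun x hx => (mem_Icc.1 (h hx)).2
    · intro h
      refine ⟨hS.2, fun x hx => mem_Icc.2 ⟨(mem_Icc.1 (hS.1 hx)).1, ?_⟩⟩
      exact (Finset.le_sup (f := id) hx).trans h
  simp only [hiff]
  split_ifs
  · rw [mem_Icc] at ht
    rw [Nat.descFactorial_eq_factorial_mul_choose]
    have h1 : (0 : ℝ) < t.choose n := by exact_mod_cast Nat.choose_pos ht.1
    have h2 : (0 : ℝ) < n.factorial := by exact_mod_cast n.factorial_pos
    push_cast
    field_simp
  · simp

end Pool.Agent.Q331.Goo
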