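import Pool.Agent.Q331.Goo.Defs

/-!
# Sums over completions of a history
-/

open Finset

namespace Pool.Agent.Q331.Goo

/-- The sum of `f r` over all completions `r` of length `j` of the history `h` by distinct new
elements of `A`. -/
noncomputable def tot (A : Finset ℕ) : ℕ → List ℕ → (List ℕ → ℝ) → ℝ
  | 0, _, f => f []
  | j + 1, h, f => ∑ x ∈ A.filter (fun x => x ∉ h), tot A j (h ++ [x]) (fun r => f (x :: r))

variable {A : Finset ℕ}

theorem tot_add (j : ℕ) : ∀ (h : List ℕ) (f g : List ℕ → ℝ),
    tot A j h (fun r => f r + g r) = tot A j h f + tot A j h g := by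
  induction j with
  | zero => intro h f g; rfl
  | succ j ih =>
    intro h f g
    simp only [tot, ih, sum_add_distrib]

theorem tot_mul (j : ℕ) : ∀ (h : List ℕ) (a : ℝ) (f : List ℕ → ℝ),
    tot A j h (fun r => a * f r) = a * tot A j h f := by
  induction j with
  | zero => intro h a f; rfl
  | succ j ih =>
    intro h a f
    simp only [tot, ih, mul_sum]

theorem tot_zero (j : ℕ) : ∀ (h : List ℕ), tot A j h (fun _ => 0) = 0 := by
  induction j with
  | zero => intro h; rfl
  | succ j ih =>
    intro h
    simp only [tot, ih, sum_const_zero]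

theorem tot_sum {ι : Type} (s : Finset ι) (j : ℕ) : ∀ (h : List ℕ) (f : ι → List ℕ → ℝ),
    tot A j h (fun r => ∑ i ∈ s, f i r) = ∑ i ∈ s, tot A j h (f i) := by
  induction j with
  | zero => intro h f; rfl
  | succ j ih =>
    intro h f
    simp only [tot]
    rw [sum_comm]
    exact sum_congr rfl fun x _ => ih _ _

theorem tot_mono (j : ℕ) : ∀ (h : List ℕ) (f g : List ℕ → ℝ), h.Nodup →
    (∀ r, r.length = j → (h ++ r).Nodup → (∀ x ∈ r, x ∈ A) → f r ≤ g r) →
    tot A j h f ≤ tot A j h g := by
  induction j with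
  | zero =>
    intro h f g hh hfg
    exact hfg [] rfl (by simpa using hh) (by simp)
  | succ j ih =>
    intro h f g hh hfg
    simp only [tot]
    refine sum_le_sum fun x hx => ?_
    rw [mem_filter] at hx
    have hx' : (h ++ [x]).Nodup := by
      rw [List.nodup_append]
      refine ⟨hh, List.nodup_singleton _, ?_⟩
      intro a ha b hb
      simp only [List.mem_singleton] at hb
      subst hb
      rintro rfl
      exact hx.2 ha
    refine ih _ _ _ hx' fun r hr hnd hA => hfg _ (by simp [hr]) (by simpa using hnd) ?_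
    intro y hy
    rw [List.mem_cons] at hy
    rcases hy with rfl | hy
    · exact hx.1
    · exact hA y hy

theorem tot_congr (j : ℕ) (h : List ℕ) (f g : List ℕ → ℝ) (hh : h.Nodup)
    (hfg : ∀ r, r.length = j → (h ++ r).Nodup → (∀ x ∈ r, x ∈ A) → f r = g r) :
    tot A j h f = tot A j h g :=
  le_antisymm (tot_mono j h f g hh fun r h1 h2 h3 => (hfg r h1 h2 h3).le)
    (tot_mono j h g f hh fun r h1 h2 h3 => (hfg r h1 h2 h3).ge)

theorem tot_nonneg (j : ℕ) (h : List ℕ) (f : List ℕ → ℝ) (hh : h.Nodup) (hf : ∀ r, 0 ≤ f r) :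
    0 ≤ tot A j h f := by
  have := tot_mono (A := A) j h (fun _ => 0) f hh fun r _ _ _ => hf r
  rwa [tot_zero] at this

/-- Adding the last element. -/
theorem tot_succ_last (j : ℕ) : ∀ (h : List ℕ) (f : List ℕ → ℝ),
    tot A (j + 1) h f =
      tot A j h (fun r => ∑ x ∈ A.filter (fun x => x ∉ h ++ r), f (r ++ [x])) := by
  induction j with
  | zero =>
    intro h f
    simp [tot]
  | succ j ih =>
    intro h f
    rw [tot]
    conv_rhs => rw [tot]
    refine sum_congr rfl fun x _ => ?_
    rw [ih]
    congr 1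
    funext r
    simp

/-- The maximum of a list. -/
def mx (l : List ℕ) : ℕ := l.foldr max 0

theorem mx_nil : mx [] = 0 := rfl

theorem mx_cons (x : ℕ) (l : List ℕ) : mx (x :: l) = max x (mx l) := rfl

theorem mx_le_iff {l : List ℕ} {t : ℕ} : mx l ≤ t ↔ ∀ x ∈ l, x ≤ t := by
  induction l with
  | nil => simp [mx_nil]
  | cons a l ih => simp [mx_cons, ih]

theorem le_mx {l : List ℕ} {x : ℕ} (h : x ∈ l) : x ≤ mx l := mx_le_iff.1 le_rfl x h

theorem mx_append (l l' : List ℕ) : mx (l ++ l') = max (mx l) (mx l') := by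
  induction l with
  | nil => simp [mx_nil]
  | cons a l ih => simp [mx_cons, ih, max_assoc]

theorem mx_mem {l : List ℕ} (h : l ≠ []) : mx l ∈ l := by
  induction l with
  | nil => exact absurd rfl h
  | cons a l ih =>
    rw [mx_cons]
    rcases eq_or_ne l [] with rfl | hl
    · simp [mx_nil]
    · rcases le_total a (mx l) with h1 | h1
      · rw [max_eq_right h1]
        exact List.mem_cons_of_mem _ (ih hl)
      · rw [max_eq_left h1]
        simp

theorem mx_eq_sup (l : List ℕ) : mx l = l.toFinset.sup id := by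
  apply le_antisymm
  · rw [mx_le_iff]
    intro x hx
    exact Finset.le_sup (f := id) (List.mem_toFinset.2 hx)
  · refine Finset.sup_le fun x hx => ?_
    exact le_mx (List.mem_toFinset.1 hx)

/-- The number of new elements that are at most `t`. -/
theorem card_new {N t : ℕ} {h : List ℕ} (hh : h.Nodup) (h1 : ∀ x ∈ h, 1 ≤ x) (ht : t ≤ N)
    (hm : mx h ≤ t) :
    ((Icc 1 N).filter fun x => x ∉ h ∧ x ≤ t).card = t - h.length := by
  have e : ((Icc 1 N).filter fun x => x ∉ h ∧ x ≤ t) = Icc 1 t \ h.toFinset := by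
    ext x
    simp only [mem_filter, mem_Icc, mem_sdiff, List.mem_toFinset]
    constructor
    · rintro ⟨⟨a, b⟩, c, d⟩
      exact ⟨⟨a, d⟩, c⟩
    · rintro ⟨⟨a, b⟩, c⟩
      exact ⟨⟨a, by omega⟩, c, b⟩
  have hsub : h.toFinset ⊆ Icc 1 t := by
    intro x hx
    rw [List.mem_toFinset] at hx
    exact mem_Icc.2 ⟨h1 x hx, mx_le_iff.1 hm x hx⟩
  rw [e, card_sdiff_of_subset hsub, Nat.card_Icc, List.toFinset_card_of_nodup hh]
  simp

theorem length_le_mx {h : List ℕ} (hh : h.Nodup) (h1 : ∀ x ∈ h, 1 ≤ x) : h.length ≤ mx h := by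
  have hsub : h.toFinset ⊆ Icc 1 (mx h) := by
    intro x hx
    rw [List.mem_toFinset] at hx
    exact mem_Icc.2 ⟨h1 x hx, le_mx hx⟩
  have := card_le_card hsub
  rw [List.toFinset_card_of_nodup hh, Nat.card_Icc] at this
  omega

/-- The number of completions with entries at most `t`. -/
theorem tot_le {N t : ℕ} (ht : t ≤ N) (a : ℝ) (j : ℕ) : ∀ (h : List ℕ), h.Nodup →
    (∀ x ∈ h, 1 ≤ x) →
    tot (Icc 1 N) j h (fun r => if mx (h ++ r) ≤ t then a else 0) =
      if mx h ≤ t then a * ((t - h.length).descFactorial j : ℝ) else 0 := by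
  induction j with
  | zero =>
    intro h _ _
    simp [tot]
  | succ j ih =>
    intro h hh h1
    rw [tot]
    have step : ∀ x ∈ (Icc 1 N).filter (fun x => x ∉ h),
        tot (Icc 1 N) j (h ++ [x]) (fun r => if mx (h ++ x :: r) ≤ t then a else 0) =
        if mx h ≤ t ∧ x ≤ t then a * ((t - h.length - 1).descFactorial j : ℝ) else 0 := by
      intro x hx
      rw [mem_filter, mem_Icc] at hx
      have hx' : (h ++ [x]).Nodup := by
        rw [List.nodup_append]
        refine ⟨hh, List.nodup_singleton _, ?_⟩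
        intro a ha b hb
        simp only [List.mem_singleton] at hb
        subst hb
        rintro rfl
        exact hx.2 ha
      have hx1 : ∀ y ∈ h ++ [x], 1 ≤ y := by
        intro y hy
        rw [List.mem_append, List.mem_singleton] at hy
        rcases hy with hy | rfl
        · exact h1 y hy
        · exact hx.1.1
      have := ih (h ++ [x]) hx' hx1
      simp only [List.append_assoc, List.singleton_append, List.length_append,
        List.length_singleton] at this
      rw [this]
      have e : mx (h ++ [x]) ≤ t ↔ mx h ≤ t ∧ x ≤ t := by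
        rw [mx_append]; simp [mx_cons, mx_nil]
      simp only [e, Nat.sub_sub]
    rw [sum_congr rfl step]
    by_cases hm : mx h ≤ t
    · simp only [hm, true_and, if_true]
      rw [← sum_filter, filter_filter, sum_const, card_new hh h1 ht hm, nsmul_eq_mul]
      rcases Nat.eq_zero_or_pos (t - h.length) with h0 | h0
      · rw [h0]; simp
      · obtain ⟨s, hs⟩ : ∃ s, t - h.length = s + 1 := ⟨t - h.length - 1, by omega⟩
        rw [hs, Nat.succ_descFactorial_succ, Nat.add_sub_cancel]
        push_cast
        ring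
    · simp [hm]

end Pool.Agent.Q331.Goo
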